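import Pool.Agent.R283.FT.Short2

namespace Pool.Agent.Results.MP_3a72d9_an.BandDominated

open Pool.Agent.R283.FT

/-- Both families of spaces are closed in `L²(ℂ, μ)`, and on the polyanalytic Fock spaces `F²_n`
(`n ≥ 1`) and on the true polyanalytic Fock spaces `F²_(k)` (`k ≥ 1`) a bounded operator belongs to
the C*-algebra generated by the Toeplitz operators with bounded symbols if and only if it is
band-dominated. -/
theorem result :
    (∀ k : ℕ, 1 ≤ k → Closed (TrueFockSpace k) ∧ Generates (TrueFockSpace k)) ∧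
    (∀ n : ℕ, 1 ≤ n → Closed (FockSpace n) ∧ Generates (FockSpace n)) :=
  ⟨fun k _ => ⟨TrueFockSpace.closed k, iff_TrueFock k⟩,
    fun n hn => ⟨FockSpace.closed n, iff_Fock n hn⟩⟩

end Pool.Agent.Results.MP_3a72d9_an.BandDominated
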